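import Mathlib
import Pool.Agent.H17.SHD

set_option autoImplicit false

namespace Pool.Agent.Results.MP_8ff099_gt.NotDescend
open Set Filter Topology Pool.Agent.H17.Div

noncomputable def p : StoneCech D → K := stoneCechExtend (continuous_subtype_val (p := (· ∈ D)))

theorem p_cont : Continuous p := continuous_stoneCechExtend _

theorem p_unit (x : D) : p (stoneCechUnit x) = x.1 :=
  congrFun (stoneCechExtend_extends (continuous_subtype_val (p := (· ∈ D)))) x

theorem img {U : Set (StoneCech D)} (hU : IsOpen U) (hne : U.Nonempty) :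
    (interior (p '' U)).Nonempty := by
  obtain ⟨x, hx⟩ := denseRange_stoneCechUnit.exists_mem_open hU hne
  obtain ⟨C, hC, hCc, hCU⟩ := exists_mem_nhds_isClosed_subset (hU.mem_nhds hx)
  obtain ⟨W, hW, hWC⟩ := (mem_nhds_subtype_iff_nhdsWithin.trans mem_nhdsWithin).1
    (show Subtype.val ⁻¹' (Subtype.val '' (stoneCechUnit ⁻¹' C)) ∈ 𝓝 x by
      rw [preimage_image_eq _ Subtype.val_injective]
      exact continuous_stoneCechUnit.continuousAt hC)
  refine ⟨x.1, mem_interior.2 ⟨W, ?_, hW, hWC.1⟩⟩
  refine (D_dense.open_subset_closure_inter hW).trans (closure_minimal (t := p '' C) ?_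
    (hCc.isCompact.image p_cont).isClosed |>.trans (image_mono hCU))
  intro y hy
  obtain ⟨z, hz, rfl⟩ := hWC.2 hy
  rw [preimage_image_eq _ Subtype.val_injective] at hz
  exact ⟨_, hz, p_unit z⟩

theorem shd_beta : SHD (StoneCech D) := by
  intro U hU hne
  obtain ⟨x, hx, hx'⟩ := shd_K (fun n => interior (p '' U n)) (fun _ => isOpen_interior)
    fun n => img (hU n) (hne n)
  choose y hy hyx using fun n => interior_subset (hx n)
  refine ⟨y, hy, fun φ hφ q hq => hx' φ hφ (p q) ?_⟩
  exact ((p_cont.tendsto q).comp hq).congr fun n => hyx (φ n)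

theorem not_compact : ¬ CompactSpace D := by
  intro h
  have h1 : D = univ := D_dense.closure_eq ▸ (isCompact_iff_compactSpace.2 h).isClosed.closure_eq.symm
  have h2 : (fun _ => true : K) ∈ D := h1 ▸ mem_univ _
  obtain ⟨r, hr⟩ := fresh h2
  exact hr ∅ rfl

theorem result : ∃ (X : Type) (_ : TopologicalSpace X),
    T35Space X ∧ ¬ CompactSpace X ∧ SHD (StoneCech X) ∧ ¬ SHD X :=
  ⟨D, inferInstance, inferInstance, not_compact, shd_beta, not_shd_D⟩

end Pool.Agent.Results.MP_8ff099_gt.NotDescend
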